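import Pool.Agent.W973.SRR.Defs

/-! # Project SRR: preference lists from scores -/

set_option autoImplicit false

namespace Pool.Agent.W763.SRR

open Pool.Agent.W973.SRR Pool.Agent.NPC

theorem pairwise_idxOf {R : ℕ → ℕ → Prop} (L : List ℕ) (h : L.Pairwise R) (b c : ℕ)
    (hb : b ∈ L) (hc : c ∈ L) (hlt : L.idxOf c < L.idxOf b) : R c b := by
  rw [List.pairwise_iff_getElem] at h
  have h1 := h (L.idxOf c) (L.idxOf b) (List.idxOf_lt_length_of_mem hc)
    (List.idxOf_lt_length_of_mem hb) hlt
  rwa [List.getElem_idxOf, List.getElem_idxOf] at h1

theorem sort : S_SORT := by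
  intro n s
  set F : ℕ → List ℕ := fun a => ((List.range n).filter fun b => decide (b ≠ a)).mergeSort
    (fun b c => decide (s a c ≤ s a b)) with hF
  have hget : ∀ a < n, ((List.range n).map F).getD a [] = F a := by
    intro a ha
    rw [List.getD_eq_getElem _ _ (by simpa using ha)]
    simp
  refine ⟨(List.range n).map F, ⟨by simp, fun a ha => ?_⟩, ?_⟩
  · rw [hget a ha]
    exact List.mergeSort_perm _ _
  · intro a ha b hb c hc hba hca hs
    unfold Pf
    rw [hget a ha]
    have hperm : (F a).Perm ((List.range n).filter fun b => decide (b ≠ a)) :=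
      List.mergeSort_perm _ _
    have hbm : b ∈ F a := by
      rw [hperm.mem_iff]; simp [hb, hba]
    have hcm : c ∈ F a := by
      rw [hperm.mem_iff]; simp [hc, hca]
    have hsort : (F a).Pairwise fun b c => s a c ≤ s a b := by
      have := List.pairwise_mergeSort (le := fun b c => decide (s a c ≤ s a b))
        (by intro x y z h1 h2; simp only [decide_eq_true_eq] at *; omega)
        (by intro x y; simp only [Bool.or_eq_true, decide_eq_true_eq]; omega)
        ((List.range n).filter fun b => decide (b ≠ a))
      exact this.imp (by intro x y h; simpa using h)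
    by_contra hcon
    rcases lt_or_eq_of_le (not_lt.1 hcon) with h | h
    · have := pairwise_idxOf (F a) hsort b c hbm hcm h
      omega
    · have h1 : b = c := by
        have h2 := List.getElem_idxOf (List.idxOf_lt_length_of_mem hbm)
        have h3 := List.getElem_idxOf (List.idxOf_lt_length_of_mem hcm)
        rw [← h2, ← h3]
        congr 1
        exact h.symm
      rw [h1] at hs
      exact lt_irrefl _ hs

end Pool.Agent.W763.SRR
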